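import Mathlib

/-! Project DR: points of a coset of a lattice in a cube. -/

set_option autoImplicit false

namespace Pool.Agent.N147.DR

open Finset

/-- a lattice containing `N` vectors with nonzero determinant has index at most the determinant -/
theorem index_le_det {N : ℕ} (L : AddSubgroup (Fin N → ℤ)) (v : Fin N → Fin N → ℤ)
    (hv : ∀ i, v i ∈ L) (hdet : (Matrix.of v).det ≠ 0) : L.index ≤ (Matrix.of v).det.natAbs := by
  have hli : LinearIndependent ℤ v := by
    rw [Fintype.linearIndependent_iff]
    intro g hg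
    have h1 : Matrix.vecMul g (Matrix.of v) = 0 := by
      rw [← hg]
      ext j
      simp [Matrix.vecMul, dotProduct, Finset.sum_apply]
    have h2 := Matrix.eq_zero_of_vecMul_eq_zero hdet h1
    intro i
    rw [h2]; rfl
  let S : Submodule ℤ (Fin N → ℤ) := Submodule.span ℤ (Set.range v)
  let bN : Module.Basis (Fin N) ℤ S := Module.Basis.span hli
  have h1 := AddSubgroup.index_eq_natAbs_det (Pi.basisFun ℤ (Fin N)) S.toAddSubgroup bN
  have h2 : ((Pi.basisFun ℤ (Fin N)).det fun i => (bN i : Fin N → ℤ)) = (Matrix.of v).det := by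
    rw [Pi.basisFun_det]
    congr 1
    ext i j
    rw [Matrix.of_apply]
    have := congrArg Subtype.val (Module.Basis.span_apply hli i)
    exact congrFun this j
  have h3 : S.toAddSubgroup.index = (Matrix.of v).det.natAbs := by rw [← h2]; exact h1
  have h4 : S.toAddSubgroup ≤ L := by
    intro x hx
    have h5 : x ∈ Submodule.span ℤ (Set.range v) := hx
    have h6 : Submodule.span ℤ (Set.range v) ≤ L.toIntSubmodule := by
      rw [Submodule.span_le]
      rintro _ ⟨i, rfl⟩
      exact hv i
    exact h6 h5
  have h5 := AddSubgroup.index_dvd_of_le h4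
  rw [h3] at h5
  exact Nat.le_of_dvd (Int.natAbs_pos.2 hdet) h5

/-- if all determinants of elements of `S` vanish then `S` lies in a hyperplane -/
theorem hyper {N : ℕ} (S : Set (Fin N → ℤ))
    (hS : ∀ v : Fin N → Fin N → ℤ, (∀ i, v i ∈ S) → (Matrix.of v).det = 0) :
    ∃ ν : Fin N → ℚ, ν ≠ 0 ∧ ∀ d ∈ S, ∑ j, ν j * (d j : ℚ) = 0 := by
  set c : (Fin N → ℤ) → (Fin N → ℚ) := fun d j => (d j : ℚ) with hc
  have hlt : Submodule.span ℚ (c '' S) < ⊤ := by
    rw [lt_top_iff_ne_top]
    intro htop
    obtain ⟨b, hb, hbs, hli⟩ := exists_linearIndependent ℚ (c '' S)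
    rw [htop] at hbs
    let B : Module.Basis b ℚ (Fin N → ℚ) := Module.Basis.mk hli (by
      rw [Subtype.range_coe_subtype, Set.ofPred_mem_eq, hbs])
    have hfin : Fintype b := FiniteDimensional.fintypeBasisIndex B
    have hcard : Fintype.card b = N := by
      have h1 := Module.finrank_eq_card_basis B
      rw [Module.finrank_fin_fun] at h1
      exact h1.symm
    let e : Fin N ≃ b := (Fintype.equivFinOfCardEq hcard).symm
    have hex : ∀ i : Fin N, ∃ d ∈ S, c d = (e i : Fin N → ℚ) := fun i => hb (e i).2
    choose v hvS hv using hex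
    have h1 := hS v hvS
    have h2 : LinearIndependent ℚ (fun i => c (v i)) := by
      have h3 : (fun i => c (v i)) = (fun i : b => (i : Fin N → ℚ)) ∘ e := by
        funext i; exact hv i
      rw [h3]
      exact hli.comp e e.injective
    have h3 : IsUnit (Matrix.of fun i => c (v i)) := by
      rw [← Matrix.linearIndependent_rows_iff_isUnit]
      exact h2
    rw [Matrix.isUnit_iff_isUnit_det, isUnit_iff_ne_zero] at h3
    apply h3
    have h4 : (Matrix.of fun i => c (v i)) = (Matrix.of v).map (Int.castRingHom ℚ) := by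
      ext i j
      simp [hc]
    rw [h4, ← RingHom.mapMatrix_apply, ← RingHom.map_det, h1, map_zero]
  obtain ⟨f, hf, hle⟩ := Submodule.exists_le_ker_of_lt_top _ hlt
  refine ⟨fun j => f (Pi.single j 1), ?_, ?_⟩
  · intro h
    apply hf
    refine LinearMap.pi_ext' fun j => LinearMap.ext_ring ?_
    exact congrFun h j
  · intro d hd
    have h1 : f (c d) = 0 := hle (Submodule.subset_span ⟨d, hd, rfl⟩)
    rw [← h1]
    conv_rhs => rw [← Finset.univ_sum_single (c d)]
    rw [map_sum]
    refine Finset.sum_congr rfl fun j _ => ?_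
    have h2 : (Pi.single j (c d j) : Fin N → ℚ) = (d j : ℚ) • Pi.single j 1 := by
      rw [← Pi.single_smul, smul_eq_mul, mul_one]
    rw [h2, map_smul, smul_eq_mul, mul_comm]

/-- points of a coset in a small cube -/
theorem cube {N : ℕ} (L : AddSubgroup (Fin N → ℤ)) (lam m : ℕ) (hlam : 1 ≤ lam)
    (hL : ∀ d ∈ L, d ≠ 0 → ∃ j, (lam : ℤ) ≤ |d j|) (hm : m = 1 ∨ N ^ N * m ^ N < L.index)
    (Z : Finset (Fin N → ℤ)) (y : Fin N → ℤ) (hZ : ∀ z ∈ Z, ∀ j, y j ≤ z j ∧ z j < y j + m)
    (hco : ∀ z ∈ Z, ∀ z' ∈ Z, z - z' ∈ L) : Z.card ≤ (N * m / lam + 1) ^ (N - 1) := by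
  rcases hm with hm | hm
  · have h1 : Z.card ≤ 1 := by
      rw [Finset.card_le_one]
      intro a ha b hb
      funext j
      have h2 := hZ a ha j
      have h3 := hZ b hb j
      rw [hm] at h2 h3
      push_cast at h2 h3
      omega
    exact h1.trans (Nat.one_le_pow _ _ (Nat.succ_pos _))
  · obtain ⟨ν, hν0, hν⟩ := hyper {d | ∃ z ∈ Z, ∃ z' ∈ Z, d = z - z'} (by
      intro v hv
      by_contra hdet
      have h1 : ∀ i, v i ∈ L := by
        intro i
        obtain ⟨z, hz, z', hz', h⟩ := hv i
        rw [h]; exact hco z hz z' hz'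
      have h2 := index_le_det L v h1 hdet
      have h3 : ∀ i j, AbsoluteValue.abs ((Matrix.of v) i j) ≤ (m : ℤ) := by
        intro i j
        obtain ⟨z, hz, z', hz', h⟩ := hv i
        rw [Matrix.of_apply, h]
        have h4 := hZ z hz j
        have h5 := hZ z' hz' j
        show |z j - z' j| ≤ (m : ℤ)
        rw [abs_le]
        constructor <;> omega
      have h4 := Matrix.det_le h3
      rw [Fintype.card_fin, nsmul_eq_mul] at h4
      have h5 : ((Matrix.of v).det.natAbs : ℤ) ≤ ((N.factorial * m ^ N : ℕ) : ℤ) := by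
        rw [Int.natCast_natAbs]
        push_cast
        exact h4
      have h6 : (Matrix.of v).det.natAbs ≤ N.factorial * m ^ N := by exact_mod_cast h5
      have h7 : N.factorial * m ^ N ≤ N ^ N * m ^ N :=
        Nat.mul_le_mul_right _ (Nat.factorial_le_pow N)
      omega)
    -- the largest coordinate of `ν`
    have hne : (univ : Finset (Fin N)).Nonempty := by
      by_contra hcon
      rw [Finset.not_nonempty_iff_eq_empty] at hcon
      apply hν0
      funext j
      exact absurd (Finset.mem_univ j) (by rw [hcon]; exact Finset.notMem_empty j)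
    obtain ⟨j0, -, hj0⟩ := Finset.exists_max_image univ (fun j => |ν j|) hne
    have hνj : 0 < |ν j0| := by
      by_contra hcon
      apply hν0
      funext j
      have h1 := hj0 j (mem_univ j)
      have h2 : |ν j| = 0 := le_antisymm (by linarith) (abs_nonneg _)
      exact abs_eq_zero.1 h2
    have hd : ∀ z ∈ Z, ∀ z' ∈ Z, |(z - z') j0| ≤ ∑ j ∈ univ.erase j0, |(z - z') j| := by
      intro z hz z' hz'
      have h1 := hν (z - z') ⟨z, hz, z', hz', rfl⟩
      rw [← Finset.add_sum_erase _ _ (mem_univ j0)] at h1
      have h2 : ν j0 * ((z - z') j0 : ℚ) = -∑ j ∈ univ.erase j0, ν j * ((z - z') j : ℚ) := by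
        linarith
      have h3 : |ν j0| * |((z - z') j0 : ℚ)| ≤ |ν j0| * ∑ j ∈ univ.erase j0, |((z - z') j : ℚ)| := by
        rw [← abs_mul, h2, abs_neg, Finset.mul_sum]
        refine (Finset.abs_sum_le_sum_abs _ _).trans (Finset.sum_le_sum fun j _ => ?_)
        rw [abs_mul]
        exact mul_le_mul_of_nonneg_right (hj0 j (mem_univ j)) (abs_nonneg _)
      have h4 := le_of_mul_le_mul_left h3 hνj
      exact_mod_cast h4
    -- the cells
    have hN : 1 ≤ N := by
      have := j0.pos
      omega
    have hinj : Set.InjOn (fun (z : Fin N → ℤ) (j : {j // j ≠ j0}) => (N * (z j - y j)) / (lam : ℤ)) Z := by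
      intro z hz z' hz' hzz
      by_contra hne'
      have hd0 : z - z' ≠ 0 := sub_ne_zero.2 hne'
      have h1 : ∀ j, j ≠ j0 → (N : ℤ) * |(z - z') j| < lam := by
        intro j hj
        have h2 : (N * (z j - y j)) / (lam : ℤ) = (N * (z' j - y j)) / (lam : ℤ) :=
          congrFun hzz ⟨j, hj⟩
        have hl : (0 : ℤ) < lam := by exact_mod_cast hlam
        have h3 := Int.mul_ediv_add_emod (N * (z j - y j)) lam
        have h4 := Int.mul_ediv_add_emod (N * (z' j - y j)) lam
        have h5 := Int.emod_nonneg (N * (z j - y j)) hl.ne'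
        have h6 := Int.emod_lt_of_pos (N * (z j - y j)) hl
        have h7 := Int.emod_nonneg (N * (z' j - y j)) hl.ne'
        have h8 := Int.emod_lt_of_pos (N * (z' j - y j)) hl
        rw [h2] at h3
        have h9 : (N : ℤ) * |(z - z') j| = |N * (z j - y j) - N * (z' j - y j)| := by
          have : (N : ℤ) * (z j - y j) - N * (z' j - y j) = N * (z - z') j := by
            rw [Pi.sub_apply]; ring
          rw [this, abs_mul, Nat.abs_cast]
        rw [h9, abs_lt]
        constructor <;> linarith
      have hl : (1 : ℤ) ≤ lam := by exact_mod_cast hlam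
      have h2 : ∀ j, |(z - z') j| < lam := by
        intro j
        by_cases hj : j = j0
        · rw [hj]
          have h3 : (N : ℤ) * |(z - z') j0| ≤ (N - 1) * (lam - 1) := by
            calc (N : ℤ) * |(z - z') j0| ≤ N * ∑ j ∈ univ.erase j0, |(z - z') j| :=
                  mul_le_mul_of_nonneg_left (hd z hz z' hz') (by positivity)
              _ = ∑ j ∈ univ.erase j0, (N : ℤ) * |(z - z') j| := Finset.mul_sum _ _ _
              _ ≤ ∑ j ∈ univ.erase j0, ((lam : ℤ) - 1) := by
                  refine Finset.sum_le_sum fun j hj => ?_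
                  have := h1 j (Finset.ne_of_mem_erase hj)
                  omega
              _ = (N - 1) * (lam - 1) := by
                  rw [Finset.sum_const, Finset.card_erase_of_mem (mem_univ _), Finset.card_univ,
                    Fintype.card_fin, nsmul_eq_mul, Nat.cast_sub hN]
                  push_cast
                  ring
          have hN' : (1 : ℤ) ≤ N := by exact_mod_cast hN
          by_contra hcon
          rw [not_lt] at hcon
          nlinarith
        · have h3 := h1 j hj
          have hN' : (1 : ℤ) ≤ N := by exact_mod_cast hN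
          have h4 := abs_nonneg ((z - z') j)
          nlinarith
      obtain ⟨j, hj⟩ := hL _ (hco z hz z' hz') hd0
      have := h2 j
      omega
    have hmap : ∀ z ∈ Z, (fun (j : {j // j ≠ j0}) => (N * (z j - y j)) / (lam : ℤ)) ∈
        Fintype.piFinset (fun _ : {j // j ≠ j0} => Finset.Icc (0 : ℤ) ((N * m / lam : ℕ) : ℤ)) := by
      intro z hz
      rw [Fintype.mem_piFinset]
      intro j
      rw [Finset.mem_Icc]
      have h2 := hZ z hz j
      have hl : (0 : ℤ) < lam := by exact_mod_cast hlam
      constructor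
      · exact Int.ediv_nonneg (mul_nonneg (by positivity) (by linarith)) hl.le
      · push_cast
        refine Int.ediv_le_ediv hl ?_
        exact mul_le_mul_of_nonneg_left (by linarith) (by positivity)
    have h1 := Finset.card_le_card_of_injOn _ hmap hinj
    refine h1.trans (le_of_eq ?_)
    rw [Fintype.card_piFinset, Finset.prod_const, Finset.card_univ, Int.card_Icc]
    have h2 : Fintype.card {j // j ≠ j0} = N - 1 := by
      rw [Fintype.card_subtype_compl, Fintype.card_fin, Fintype.card_subtype_eq]
    rw [h2]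
    congr 1

/-- points of a coset in a box -/
theorem box {N : ℕ} (L : AddSubgroup (Fin N → ℤ)) (lam m B : ℕ) (hlam : 1 ≤ lam) (hm1 : 1 ≤ m)
    (hL : ∀ d ∈ L, d ≠ 0 → ∃ j, (lam : ℤ) ≤ |d j|) (hm : m = 1 ∨ N ^ N * m ^ N < L.index)
    (T : Finset (Fin N → ℤ)) (x : Fin N → ℤ) (hT : ∀ z ∈ T, (∀ j, |z j| ≤ B) ∧ z - x ∈ L) :
    T.card ≤ (N * m / lam + 1) ^ (N - 1) * (2 * B / m + 1) ^ N := by
  have hm0 : (0 : ℤ) < m := by exact_mod_cast hm1
  have h1 := Finset.card_le_mul_card_image_of_maps_to
    (f := fun (z : Fin N → ℤ) (j : Fin N) => (z j + B) / (m : ℤ)) (s := T)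
    (t := Fintype.piFinset (fun _ : Fin N => Finset.Icc (0 : ℤ) ((2 * B / m : ℕ) : ℤ)))
    (by
      intro z hz
      rw [Fintype.mem_piFinset]
      intro j
      have h2 := abs_le.1 ((hT z hz).1 j)
      rw [Finset.mem_Icc]
      constructor
      · exact Int.ediv_nonneg (by linarith) hm0.le
      · push_cast
        exact Int.ediv_le_ediv hm0 (by linarith))
    ((N * m / lam + 1) ^ (N - 1))
    (by
      intro q _
      refine cube L lam m hlam hL hm _ (fun j => m * q j - B) ?_ ?_
      · intro z hz j
        rw [Finset.mem_filter] at hz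
        have h2 : (z j + B) / (m : ℤ) = q j := congrFun hz.2 j
        have h3 := Int.mul_ediv_add_emod (z j + B) m
        have h4 := Int.emod_nonneg (z j + B) hm0.ne'
        have h5 := Int.emod_lt_of_pos (z j + B) hm0
        rw [h2] at h3
        constructor <;> linarith
      · intro z hz z' hz'
        rw [Finset.mem_filter] at hz hz'
        have h2 := L.sub_mem (hT z hz.1).2 (hT z' hz'.1).2
        have h3 : z - x - (z' - x) = z - z' := by abel
        rwa [h3] at h2)
  refine h1.trans (le_of_eq ?_)
  rw [Fintype.card_piFinset, Finset.prod_const, Finset.card_univ, Int.card_Icc, Fintype.card_fin]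
  congr 2

end Pool.Agent.N147.DR
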