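import Pool.Agent.N753.DR.Stm
import Pool.Agent.N147.DR.Lat1

/-! Project DR: points of cosets of many lattices of large index. -/

set_option autoImplicit false

namespace Pool.Agent.N147.DR

open Finset Pool.Agent.N753.DR

/-- the sphere of radius `j` in the sup norm -/
noncomputable def sph (N j : ℕ) : Finset (Fin N → ℤ) :=
  (Fintype.piFinset fun _ : Fin N => Finset.Icc (-(j : ℤ)) j).filter fun c => ∃ k, |c k| = j

theorem sph_card (N j : ℕ) : (sph N j).card ≤ N * (2 * (2 * j + 1) ^ (N - 1)) := by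
  classical
  have h1 : sph N j ⊆ (univ : Finset (Fin N)).biUnion fun k =>
      Fintype.piFinset fun l : Fin N => if l = k then ({(j : ℤ), -(j : ℤ)} : Finset ℤ)
        else Finset.Icc (-(j : ℤ)) j := by
    intro c hc
    unfold sph at hc
    rw [Finset.mem_filter, Fintype.mem_piFinset] at hc
    obtain ⟨hc, k, hk⟩ := hc
    rw [Finset.mem_biUnion]
    refine ⟨k, mem_univ _, ?_⟩
    rw [Fintype.mem_piFinset]
    intro l
    split_ifs with h
    · rw [h, Finset.mem_insert, Finset.mem_singleton]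
      have hj : (0 : ℤ) ≤ j := by positivity
      exact (abs_eq hj).1 hk
    · exact hc l
  refine (Finset.card_le_card h1).trans (Finset.card_biUnion_le.trans ?_)
  have h2 : ∀ k ∈ (univ : Finset (Fin N)), (Fintype.piFinset fun l : Fin N =>
      if l = k then ({(j : ℤ), -(j : ℤ)} : Finset ℤ) else Finset.Icc (-(j : ℤ)) j).card ≤
        2 * (2 * j + 1) ^ (N - 1) := by
    intro k _
    rw [Fintype.card_piFinset, ← Finset.mul_prod_erase _ _ (mem_univ k), if_pos rfl]
    refine Nat.mul_le_mul Finset.card_le_two ?_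
    have h3 : ∀ l ∈ univ.erase k, (if l = k then ({(j : ℤ), -(j : ℤ)} : Finset ℤ)
        else Finset.Icc (-(j : ℤ)) j).card = 2 * j + 1 := by
      intro l hl
      rw [if_neg (Finset.ne_of_mem_erase hl), Int.card_Icc]
      omega
    rw [Finset.prod_congr rfl h3, Finset.prod_const, Finset.card_erase_of_mem (mem_univ _),
      Finset.card_univ, Fintype.card_fin]
  refine (Finset.sum_le_sum h2).trans (le_of_eq ?_)
  rw [Finset.sum_const, Finset.card_univ, Fintype.card_fin, smul_eq_mul]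

/-- the shortest vector -/
theorem short {N : ℕ} (hN : 1 ≤ N) (L : AddSubgroup (Fin N → ℤ)) (hL : L.index ≠ 0) :
    ∃ lam : ℕ, 1 ≤ lam ∧ (∀ d ∈ L, d ≠ 0 → ∃ j, (lam : ℤ) ≤ |d j|) ∧
      ∃ c ∈ L, c ≠ 0 ∧ c ∈ sph N lam := by
  classical
  have hex : ∃ k : ℕ, ∃ d ∈ L, d ≠ 0 ∧ ∀ j, |d j| ≤ (k : ℤ) := by
    refine ⟨L.index, L.index • (Pi.single ⟨0, hN⟩ 1 : Fin N → ℤ), L.nsmul_index_mem _, ?_, ?_⟩
    · intro h
      have h1 := congrFun h ⟨0, hN⟩
      simp only [Pi.smul_apply, Pi.single_eq_same, Pi.zero_apply, smul_eq_mul, nsmul_eq_mul,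
        mul_one] at h1
      exact hL (by exact_mod_cast h1)
    · intro j
      rw [Pi.smul_apply]
      by_cases hj : j = ⟨0, hN⟩
      · rw [hj, Pi.single_eq_same, nsmul_eq_mul, mul_one, Nat.abs_cast]
      · rw [Pi.single_eq_of_ne hj, smul_zero, abs_zero]
        positivity
  set lam := Nat.find hex with hlam
  obtain ⟨c, hc, hc0, hcj⟩ := Nat.find_spec hex
  have h1 : 1 ≤ lam := by
    by_contra hcon
    apply hc0
    funext j
    have h2 := hcj j
    have h3 : lam = 0 := by omega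
    rw [← hlam, h3] at h2
    have h4 := abs_nonneg (c j)
    exact abs_eq_zero.1 (le_antisymm (by simpa using h2) h4)
  have h2 : ∀ d ∈ L, d ≠ 0 → ∃ j, (lam : ℤ) ≤ |d j| := by
    intro d hd hd0
    by_contra hcon
    push Not at hcon
    refine Nat.find_min hex (m := lam - 1) (by omega) ⟨d, hd, hd0, fun j => ?_⟩
    have := hcon j
    push_cast [Nat.cast_sub h1]
    omega
  refine ⟨lam, h1, h2, c, hc, hc0, ?_⟩
  unfold sph
  rw [Finset.mem_filter, Fintype.mem_piFinset]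
  refine ⟨fun j => ?_, ?_⟩
  · rw [Finset.mem_Icc]
    exact abs_le.1 (hcj j)
  · obtain ⟨j, hj⟩ := h2 c hc hc0
    exact ⟨j, le_antisymm (hcj j) hj⟩

/-- `(a + 1) ^ k ≤ 2 ^ k (1 + a ^ k)` -/
theorem add_one_pow_le {a : ℝ} (ha : 0 ≤ a) (k : ℕ) : (a + 1) ^ k ≤ 2 ^ k * (1 + a ^ k) := by
  rcases le_total a 1 with h | h
  · calc (a + 1) ^ k ≤ 2 ^ k := pow_le_pow_left₀ (by linarith) (by linarith) k
      _ ≤ 2 ^ k * (1 + a ^ k) := by
          have : 0 ≤ a ^ k := pow_nonneg ha k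
          nlinarith [pow_pos (by norm_num : (0 : ℝ) < 2) k]
  · calc (a + 1) ^ k ≤ (2 * a) ^ k := pow_le_pow_left₀ (by linarith) (by linarith) k
      _ = 2 ^ k * a ^ k := mul_pow _ _ _
      _ ≤ 2 ^ k * (1 + a ^ k) := by
          nlinarith [pow_pos (by norm_num : (0 : ℝ) < 2) k]

/-- the sum over the lattices of the powers of the shortest vectors -/
theorem sumlam {N : ℕ} (hN : 1 ≤ N) {ι : Type} (I : Finset ι) (Λ : ι → AddSubgroup (Fin N → ℤ))
    (B P D : ℕ) (hP : 1 ≤ P) (hI : I.card ≤ D * P)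
    (hD : ∀ c : Fin N → ℤ, c ≠ 0 → (∀ j, |c j| ≤ 2 * B) → {i | i ∈ I ∧ c ∈ Λ i}.ncard ≤ D)
    (lam : ι → ℕ) (hlam1 : ∀ i ∈ I, 1 ≤ lam i)
    (hlam : ∀ i ∈ I, ∃ c ∈ Λ i, c ≠ 0 ∧ c ∈ sph N (lam i)) (Y : ℝ) (hY : 1 ≤ Y) (hYP : Y ^ N = P) :
    ∑ i ∈ I.filter (fun i => lam i ≤ 2 * B), (1 : ℝ) / (lam i : ℝ) ^ (N - 1) ≤
      (2 * N * 3 ^ N + 1) * D * Y := by
  classical
  set J := I.filter (fun i => lam i ≤ 2 * B) with hJ
  have hY0 : 0 < Y := by linarith
  rw [← Finset.sum_filter_add_sum_filter_not J (fun i => (lam i : ℝ) ≤ Y)]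
  have h1 : ∑ i ∈ J.filter (fun i => (lam i : ℝ) ≤ Y), (1 : ℝ) / (lam i : ℝ) ^ (N - 1) ≤
      (2 * N * 3 ^ N) * D * Y := by
    have hmaps : ∀ i ∈ J.filter (fun i => (lam i : ℝ) ≤ Y), lam i ∈ Finset.Icc 1 ⌊Y⌋₊ := by
      intro i hi
      rw [Finset.mem_filter, hJ, Finset.mem_filter] at hi
      rw [Finset.mem_Icc]
      exact ⟨hlam1 i hi.1.1, Nat.le_floor hi.2⟩
    rw [← Finset.sum_fiberwise_of_maps_to hmaps]
    have h2 : ∀ j ∈ Finset.Icc 1 ⌊Y⌋₊,
        ∑ i ∈ (J.filter (fun i => (lam i : ℝ) ≤ Y)).filter (fun i => lam i = j),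
          (1 : ℝ) / (lam i : ℝ) ^ (N - 1) ≤ 2 * N * 3 ^ N * D := by
      intro j hj
      rw [Finset.mem_Icc] at hj
      have hj0 : (0 : ℝ) < j := by exact_mod_cast hj.1
      have h3 : ∑ i ∈ (J.filter (fun i => (lam i : ℝ) ≤ Y)).filter (fun i => lam i = j),
          (1 : ℝ) / (lam i : ℝ) ^ (N - 1) =
          ((J.filter (fun i => (lam i : ℝ) ≤ Y)).filter (fun i => lam i = j)).card *
            (1 / (j : ℝ) ^ (N - 1)) := by
        rw [← nsmul_eq_mul, ← Finset.sum_const]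
        refine Finset.sum_congr rfl fun i hi => ?_
        rw [(Finset.mem_filter.1 hi).2]
      rw [h3]
      -- the number of the lattices
      have h4 : ((J.filter (fun i => (lam i : ℝ) ≤ Y)).filter (fun i => lam i = j)).card ≤
          D * (N * (2 * (2 * j + 1) ^ (N - 1))) := by
        rcases Finset.eq_empty_or_nonempty
          ((J.filter (fun i => (lam i : ℝ) ≤ Y)).filter (fun i => lam i = j)) with he | ⟨i0, hi0⟩
        · rw [he]; simp
        · have hjB : j ≤ 2 * B := by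
            rw [Finset.mem_filter, Finset.mem_filter, hJ, Finset.mem_filter] at hi0
            rw [← hi0.2]
            exact hi0.1.1.2
          have h5 : (J.filter (fun i => (lam i : ℝ) ≤ Y)).filter (fun i => lam i = j) ⊆
              ((sph N j).filter (fun c => c ≠ 0)).biUnion fun c => I.filter (fun i => c ∈ Λ i) := by
            intro i hi
            rw [Finset.mem_filter, Finset.mem_filter, hJ, Finset.mem_filter] at hi
            obtain ⟨c, hc, hc0, hcs⟩ := hlam i hi.1.1.1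
            rw [Finset.mem_biUnion]
            refine ⟨c, ?_, Finset.mem_filter.2 ⟨hi.1.1.1, hc⟩⟩
            rw [Finset.mem_filter]
            rw [hi.2] at hcs
            exact ⟨hcs, hc0⟩
          refine (Finset.card_le_card h5).trans (Finset.card_biUnion_le.trans ?_)
          have h6 : ∀ c ∈ (sph N j).filter (fun c => c ≠ 0), (I.filter (fun i => c ∈ Λ i)).card ≤ D := by
            intro c hc
            rw [Finset.mem_filter] at hc
            have h7 := hD c hc.2 (fun k => by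
              have h8 := hc.1
              unfold sph at h8
              rw [Finset.mem_filter, Fintype.mem_piFinset] at h8
              have h9 := Finset.mem_Icc.1 (h8.1 k)
              have h10 : |c k| ≤ j := abs_le.2 h9
              have h11 : (j : ℤ) ≤ 2 * B := by exact_mod_cast hjB
              linarith)
            refine le_trans (le_of_eq ?_) h7
            rw [← Set.ncard_coe_finset]
            congr 1
            ext i
            simp
          refine (Finset.sum_le_sum h6).trans ?_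
          rw [Finset.sum_const, smul_eq_mul, mul_comm]
          exact Nat.mul_le_mul_left _ ((Finset.card_le_card (Finset.filter_subset _ _)).trans
            (sph_card N j))
      have h5 : (((J.filter (fun i => (lam i : ℝ) ≤ Y)).filter (fun i => lam i = j)).card : ℝ) ≤
          D * (N * (2 * (2 * j + 1) ^ (N - 1))) := by exact_mod_cast h4
      have h6 : ((2 : ℝ) * j + 1) ^ (N - 1) ≤ 3 ^ N * (j : ℝ) ^ (N - 1) := by
        have hj1 : (1 : ℝ) ≤ j := by exact_mod_cast hj.1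
        calc ((2 : ℝ) * j + 1) ^ (N - 1) ≤ (3 * j) ^ (N - 1) :=
              pow_le_pow_left₀ (by positivity) (by linarith) _
          _ = 3 ^ (N - 1) * (j : ℝ) ^ (N - 1) := mul_pow _ _ _
          _ ≤ 3 ^ N * (j : ℝ) ^ (N - 1) := by
              refine mul_le_mul_of_nonneg_right ?_ (by positivity)
              exact pow_le_pow_right₀ (by norm_num) (Nat.sub_le _ _)
      calc (((J.filter (fun i => (lam i : ℝ) ≤ Y)).filter (fun i => lam i = j)).card : ℝ) *
            (1 / (j : ℝ) ^ (N - 1)) ≤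
            (D * (N * (2 * (3 ^ N * (j : ℝ) ^ (N - 1))))) * (1 / (j : ℝ) ^ (N - 1)) := by
              refine mul_le_mul_of_nonneg_right (h5.trans ?_) (by positivity)
              gcongr
        _ = 2 * N * 3 ^ N * D := by
            field_simp
    refine (Finset.sum_le_sum h2).trans ?_
    rw [Finset.sum_const, Nat.card_Icc, nsmul_eq_mul]
    have h3 : ((⌊Y⌋₊ + 1 - 1 : ℕ) : ℝ) ≤ Y := by
      rw [Nat.add_sub_cancel]; exact Nat.floor_le hY0.le
    calc ((⌊Y⌋₊ + 1 - 1 : ℕ) : ℝ) * (2 * N * 3 ^ N * D) ≤ Y * (2 * N * 3 ^ N * D) :=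
          mul_le_mul_of_nonneg_right h3 (by positivity)
      _ = _ := by ring
  have h2 : ∑ i ∈ J.filter (fun i => ¬ (lam i : ℝ) ≤ Y), (1 : ℝ) / (lam i : ℝ) ^ (N - 1) ≤ D * Y := by
    have h3 : ∀ i ∈ J.filter (fun i => ¬ (lam i : ℝ) ≤ Y), (1 : ℝ) / (lam i : ℝ) ^ (N - 1) ≤
        1 / Y ^ (N - 1) := by
      intro i hi
      rw [Finset.mem_filter, not_le] at hi
      exact one_div_le_one_div_of_le (by positivity) (pow_le_pow_left₀ hY0.le hi.2.le _)
    refine (Finset.sum_le_sum h3).trans ?_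
    rw [Finset.sum_const, nsmul_eq_mul]
    have h4 : ((J.filter (fun i => ¬ (lam i : ℝ) ≤ Y)).card : ℝ) ≤ D * Y ^ N := by
      rw [hYP]
      have h5 : (J.filter (fun i => ¬ (lam i : ℝ) ≤ Y)).card ≤ I.card :=
        Finset.card_le_card ((Finset.filter_subset _ _).trans (Finset.filter_subset _ _))
      exact_mod_cast h5.trans hI
    calc ((J.filter (fun i => ¬ (lam i : ℝ) ≤ Y)).card : ℝ) * (1 / Y ^ (N - 1)) ≤
          (D * Y ^ N) * (1 / Y ^ (N - 1)) := mul_le_mul_of_nonneg_right h4 (by positivity)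
      _ = D * Y := by
          obtain ⟨k, rfl⟩ : ∃ k, N = k + 1 := ⟨N - 1, by omega⟩
          rw [Nat.add_sub_cancel, pow_succ]
          field_simp
  calc _ ≤ (2 * N * 3 ^ N) * D * Y + D * Y := add_le_add h1 h2
    _ = _ := by ring

/-- the choice of the side of the cubes -/
theorem side {N : ℕ} (hN : 1 ≤ N) (B P : ℕ) (hB : 1 ≤ B) (hP : 1 ≤ P) (Y : ℝ) (hY : 1 ≤ Y)
    (hYP : Y ^ N = P) : ∃ m : ℕ, 1 ≤ m ∧ m ≤ B ∧ (m = 1 ∨ N ^ N * m ^ N < P ^ 2) ∧
      1 / (m : ℝ) ≤ 1 / B + 4 * N / Y ^ 2 := by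
  have hN0 : (0 : ℝ) < N := by exact_mod_cast hN
  have hB0 : (0 : ℝ) < B := by exact_mod_cast hB
  have hY2 : 0 < Y ^ 2 := by positivity
  set f := ⌊Y ^ 2 / (2 * N)⌋₊ with hf
  by_cases hf1 : f = 0
  · refine ⟨1, le_rfl, hB, Or.inl rfl, ?_⟩
    have h1 : Y ^ 2 / (2 * N) < 1 := Nat.floor_eq_zero.1 hf1
    rw [div_lt_one (by positivity)] at h1
    have h2 : 1 ≤ 4 * N / Y ^ 2 := by
      rw [le_div_iff₀ hY2]; linarith
    have h3 : 0 ≤ 1 / (B : ℝ) := by positivity
    simp only [Nat.cast_one, div_one]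
    linarith
  · have hf1' : 1 ≤ f := Nat.one_le_iff_ne_zero.2 hf1
    have hfle : (f : ℝ) ≤ Y ^ 2 / (2 * N) := Nat.floor_le (by positivity)
    have hflt : Y ^ 2 / (2 * N) < f + 1 := Nat.lt_floor_add_one _
    refine ⟨min B f, le_min hB hf1', min_le_left _ _, Or.inr ?_, ?_⟩
    · have h1 : ((min B f : ℕ) : ℝ) ≤ Y ^ 2 / (2 * N) := by
        refine le_trans ?_ hfle
        exact_mod_cast min_le_right _ _
      have h2 : (N : ℝ) ^ N * ((min B f : ℕ) : ℝ) ^ N ≤ (P : ℝ) ^ 2 / 2 ^ N := by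
        calc (N : ℝ) ^ N * ((min B f : ℕ) : ℝ) ^ N = (N * ((min B f : ℕ) : ℝ)) ^ N :=
              (mul_pow _ _ _).symm
          _ ≤ (Y ^ 2 / 2) ^ N := by
              refine pow_le_pow_left₀ (by positivity) ?_ N
              rw [le_div_iff₀ (by positivity)] at h1
              linarith
          _ = (P : ℝ) ^ 2 / 2 ^ N := by
              rw [div_pow, ← pow_mul, mul_comm 2 N, pow_mul, hYP]
      have h3 : (P : ℝ) ^ 2 / 2 ^ N < (P : ℝ) ^ 2 := by
        refine div_lt_self (by positivity) ?_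
        exact one_lt_pow₀ (by norm_num) (by omega)
      have h4 : (N : ℝ) ^ N * ((min B f : ℕ) : ℝ) ^ N < (P : ℝ) ^ 2 := lt_of_le_of_lt h2 h3
      exact_mod_cast h4
    · rcases min_choice B f with h | h
      · rw [h]
        have : 0 ≤ 4 * N / Y ^ 2 := by positivity
        linarith
      · rw [h]
        have h1 : (1 : ℝ) / f ≤ 4 * N / Y ^ 2 := by
          have hf0 : (1 : ℝ) ≤ f := by exact_mod_cast hf1'
          rw [div_le_div_iff₀ (by linarith) hY2]
          rw [div_lt_iff₀ (by positivity)] at hflt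
          nlinarith
        have : 0 ≤ 1 / (B : ℝ) := by positivity
        linarith

theorem t : StmLat := by
  intro N hN
  have hN0 : (0 : ℝ) < N := by exact_mod_cast hN
  set K1 : ℝ := 3 ^ N * 2 ^ N * N ^ N with hK1
  have hK10 : 0 < K1 := by positivity
  set K2 : ℝ := 2 * N * 3 ^ N + 1 with hK2
  have hK20 : 0 < K2 := by positivity
  refine ⟨1 + K1 * (2 ^ N * (4 * N) ^ N + K2 * (4 * N)), by positivity, ?_⟩
  intro ι I Λ x B P D hB hP hD hI hidx hmult
  classical
  have hB0 : (0 : ℝ) < B := by exact_mod_cast hB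
  have hP0 : (0 : ℝ) < P := by exact_mod_cast hP
  have hP1 : (1 : ℝ) ≤ P := by exact_mod_cast hP
  have hD0 : (0 : ℝ) < D := by exact_mod_cast hD
  set Y : ℝ := (P : ℝ) ^ (1 / (N : ℝ)) with hY
  have hY1 : 1 ≤ Y := Real.one_le_rpow hP1 (by positivity)
  have hY0 : 0 < Y := by linarith
  have hYP : Y ^ N = P := by
    rw [hY, ← Real.rpow_natCast, ← Real.rpow_mul hP0.le, one_div_mul_cancel hN0.ne', Real.rpow_one]
  have hYinv : (P : ℝ) ^ (-(1 / (N : ℝ))) = 1 / Y := by
    rw [Real.rpow_neg hP0.le, ← hY, inv_eq_one_div]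
  have hBN : (B : ℝ) ^ (N : ℝ) = (B : ℝ) ^ N := Real.rpow_natCast _ _
  have hBN1 : (B : ℝ) ^ ((N : ℝ) - 1) = (B : ℝ) ^ (N - 1) := by
    rw [← Real.rpow_natCast, Nat.cast_sub hN, Nat.cast_one]
  have hYleP : Y ≤ P := by
    rw [← hYP]
    exact le_self_pow₀ hY1 (by omega)
  rw [hYinv, hBN, hBN1]
  obtain ⟨m, hm1, hmB, hmP, hminv⟩ := side hN B P hB hP Y hY1 hYP
  have hm0 : (0 : ℝ) < m := by exact_mod_cast hm1
  -- the shortest vectors
  have hsh : ∀ i : ι, ∃ lam : ℕ, i ∈ I → 1 ≤ lam ∧ (∀ d ∈ Λ i, d ≠ 0 → ∃ j, (lam : ℤ) ≤ |d j|) ∧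
      ∃ c ∈ Λ i, c ≠ 0 ∧ c ∈ sph N lam := by
    intro i
    by_cases hi : i ∈ I
    · obtain ⟨lam, h⟩ := short hN (Λ i) (hidx i hi).1
      exact ⟨lam, fun _ => h⟩
    · exact ⟨0, fun h => absurd h hi⟩
  choose lam hlam using hsh
  -- the points as finsets
  set T : ι → Finset (Fin N → ℤ) := fun i =>
    (Fintype.piFinset fun _ : Fin N => Finset.Icc (-(B : ℤ)) B).filter fun c => c - x i ∈ Λ i with hT
  have hTm : ∀ i c, c ∈ T i ↔ (∀ j, |c j| ≤ B) ∧ c - x i ∈ Λ i := by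
    intro i c
    rw [hT]
    simp only [Finset.mem_filter, Fintype.mem_piFinset, Finset.mem_Icc, abs_le]
  have hTn : ∀ i, {c : Fin N → ℤ | (∀ j, |c j| ≤ B) ∧ c - x i ∈ Λ i}.ncard = (T i).card := by
    intro i
    rw [← Set.ncard_coe_finset]
    congr 1
    ext c
    rw [Finset.mem_coe, hTm]
    rfl
  simp only [hTn]
  -- the bound for one lattice
  have hone : ∀ i ∈ I, ¬ lam i ≤ 2 * B → ((T i).card : ℝ) ≤ 1 := by
    intro i hi hl
    obtain ⟨h1, h2, _⟩ := hlam i hi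
    have h3 : (T i).card ≤ 1 := by
      rw [Finset.card_le_one]
      intro a ha b hb
      rw [hTm] at ha hb
      by_contra hne
      have h4 := (Λ i).sub_mem ha.2 hb.2
      have h5 : a - x i - (b - x i) = a - b := by abel
      rw [h5] at h4
      obtain ⟨j, hj⟩ := h2 _ h4 (sub_ne_zero.2 hne)
      have h6 : |(a - b) j| ≤ |a j| + |b j| := by
        rw [Pi.sub_apply]; exact abs_sub _ _
      have h7 := ha.1 j
      have h8 := hb.1 j
      have h9 : (2 * B : ℤ) < lam i := by exact_mod_cast not_le.1 hl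
      omega
    exact_mod_cast h3
  have hbox : ∀ i ∈ I, ((T i).card : ℝ) ≤ K1 * (((B : ℝ) / m) ^ N +
      (B : ℝ) ^ N / m * (1 / (lam i : ℝ) ^ (N - 1))) := by
    intro i hi
    obtain ⟨h1, h2, _⟩ := hlam i hi
    have hl0 : (0 : ℝ) < lam i := by exact_mod_cast h1
    have hm' : m = 1 ∨ N ^ N * m ^ N < (Λ i).index := by
      rcases hmP with h | h
      · exact Or.inl h
      · exact Or.inr (lt_of_lt_of_le h (hidx i hi).2)
    have h3 := box (Λ i) (lam i) m B h1 hm1 h2 hm' (T i) (x i) (fun z hz => (hTm i z).1 hz)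
    have h4 : ((T i).card : ℝ) ≤ (((N * m / lam i : ℕ) : ℝ) + 1) ^ (N - 1) *
        (((2 * B / m : ℕ) : ℝ) + 1) ^ N := by exact_mod_cast h3
    have h5 : ((N * m / lam i : ℕ) : ℝ) ≤ N * m / lam i := by
      have := Nat.cast_div_le (α := ℝ) (m := N * m) (n := lam i)
      push_cast at this
      exact this
    have h6 : ((2 * B / m : ℕ) : ℝ) + 1 ≤ 3 * (B / m) := by
      have h7 := Nat.cast_div_le (α := ℝ) (m := 2 * B) (n := m)
      push_cast at h7
      have h8 : (1 : ℝ) ≤ B / m := by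
        rw [le_div_iff₀ hm0, one_mul]; exact_mod_cast hmB
      have h9 : (2 : ℝ) * B / m = 2 * (B / m) := by ring
      linarith
    have h7 : (((N * m / lam i : ℕ) : ℝ) + 1) ^ (N - 1) ≤
        2 ^ (N - 1) * (1 + (N * m / lam i) ^ (N - 1)) :=
      (pow_le_pow_left₀ (by positivity) (by linarith) _).trans
        (add_one_pow_le (by positivity) (N - 1))
    have h8 : (((2 * B / m : ℕ) : ℝ) + 1) ^ N ≤ (3 * (B / m)) ^ N :=
      pow_le_pow_left₀ (by positivity) h6 N
    have h9 : (2 : ℝ) ^ (N - 1) * (1 + (N * m / lam i) ^ (N - 1)) ≤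
        2 ^ N * N ^ N * (1 + (m / lam i) ^ (N - 1)) := by
      have e1 : ((N : ℝ) * m / lam i) ^ (N - 1) = N ^ (N - 1) * (m / lam i) ^ (N - 1) := by
        rw [mul_div_assoc, mul_pow]
      have e2 : (2 : ℝ) ^ (N - 1) ≤ 2 ^ N := pow_le_pow_right₀ (by norm_num) (Nat.sub_le _ _)
      have hN1 : (1 : ℝ) ≤ N := by exact_mod_cast hN
      have e3 : (N : ℝ) ^ (N - 1) ≤ N ^ N := pow_le_pow_right₀ hN1 (Nat.sub_le _ _)
      have e4 : (1 : ℝ) ≤ N ^ N := one_le_pow₀ hN1
      have e5 : (0 : ℝ) ≤ (m / lam i) ^ (N - 1) := by positivity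
      rw [e1]
      calc (2 : ℝ) ^ (N - 1) * (1 + N ^ (N - 1) * (m / lam i) ^ (N - 1)) ≤
            2 ^ N * (N ^ N + N ^ N * (m / lam i) ^ (N - 1)) := by
              refine mul_le_mul e2 (add_le_add e4 (mul_le_mul_of_nonneg_right e3 e5))
                (by positivity) (by positivity)
        _ = _ := by ring
    calc ((T i).card : ℝ) ≤ _ := h4
      _ ≤ (2 ^ N * N ^ N * (1 + (m / lam i) ^ (N - 1))) * (3 * (B / m)) ^ N :=
          mul_le_mul (h7.trans h9) h8 (by positivity) (by positivity)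
      _ = K1 * (((B : ℝ) / m) ^ N + (B : ℝ) ^ N / m * (1 / (lam i : ℝ) ^ (N - 1))) := by
          obtain ⟨k, rfl⟩ : ∃ k, N = k + 1 := ⟨N - 1, by omega⟩
          rw [hK1, Nat.add_sub_cancel, mul_pow, div_pow, div_pow]
          field_simp
          ring
  -- the sum
  have hsum := sumlam hN I Λ B P D hP hI hmult lam (fun i hi => (hlam i hi).1)
    (fun i hi => (hlam i hi).2.2) Y hY1 hYP
  have hIr : (I.card : ℝ) ≤ D * P := by exact_mod_cast hI
  rw [← Finset.sum_filter_add_sum_filter_not I (fun i => lam i ≤ 2 * B)]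
  have hs2 : ∑ i ∈ I.filter (fun i => ¬ lam i ≤ 2 * B), ((T i).card : ℝ) ≤ D * P := by
    calc ∑ i ∈ I.filter (fun i => ¬ lam i ≤ 2 * B), ((T i).card : ℝ) ≤
          ∑ i ∈ I.filter (fun i => ¬ lam i ≤ 2 * B), (1 : ℝ) := by
            refine Finset.sum_le_sum fun i hi => ?_
            rw [Finset.mem_filter] at hi
            exact hone i hi.1 hi.2
      _ ≤ ∑ i ∈ I, (1 : ℝ) :=
            Finset.sum_le_sum_of_subset_of_nonneg (Finset.filter_subset _ _) fun _ _ _ => by norm_num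
      _ = I.card := by rw [Finset.sum_const, nsmul_eq_mul, mul_one]
      _ ≤ D * P := hIr
  have hs1 : ∑ i ∈ I.filter (fun i => lam i ≤ 2 * B), ((T i).card : ℝ) ≤
      K1 * (D * P * ((B : ℝ) / m) ^ N + (B : ℝ) ^ N / m * (K2 * D * Y)) := by
    calc ∑ i ∈ I.filter (fun i => lam i ≤ 2 * B), ((T i).card : ℝ) ≤
          ∑ i ∈ I.filter (fun i => lam i ≤ 2 * B), K1 * (((B : ℝ) / m) ^ N +
            (B : ℝ) ^ N / m * (1 / (lam i : ℝ) ^ (N - 1))) :=
            Finset.sum_le_sum fun i hi => hbox i (Finset.mem_filter.1 hi).1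
      _ = K1 * ((I.filter (fun i => lam i ≤ 2 * B)).card * ((B : ℝ) / m) ^ N +
            (B : ℝ) ^ N / m * ∑ i ∈ I.filter (fun i => lam i ≤ 2 * B),
              (1 / (lam i : ℝ) ^ (N - 1))) := by
            rw [← Finset.mul_sum, Finset.sum_add_distrib, Finset.sum_const, nsmul_eq_mul,
              ← Finset.mul_sum]
      _ ≤ _ := by
            refine mul_le_mul_of_nonneg_left (add_le_add ?_ ?_) hK10.le
            · refine mul_le_mul_of_nonneg_right (le_trans ?_ hIr) (by positivity)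
              exact_mod_cast Finset.card_le_card (Finset.filter_subset _ _)
            · exact mul_le_mul_of_nonneg_left hsum (by positivity)
  -- the final inequalities
  have hq1 : ((B : ℝ) / m) ^ N ≤ 2 ^ N * (4 * N) ^ N * (1 + B ^ N / (P * Y)) := by
    have e1 : (B : ℝ) / m ≤ 4 * N * B / Y ^ 2 + 1 := by
      calc (B : ℝ) / m = B * (1 / m) := by ring
        _ ≤ B * (1 / B + 4 * N / Y ^ 2) := mul_le_mul_of_nonneg_left hminv hB0.le
        _ = 4 * N * B / Y ^ 2 + 1 := by field_simp; ring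
    have e2 := (pow_le_pow_left₀ (by positivity) e1 N).trans
      (add_one_pow_le (a := 4 * N * B / Y ^ 2) (by positivity) N)
    have e3 : (4 * (N : ℝ) * B / Y ^ 2) ^ N = (4 * N) ^ N * (B ^ N / (P : ℝ) ^ 2) := by
      rw [div_pow, mul_pow, ← pow_mul, mul_comm 2 N, pow_mul, hYP]
      ring
    have e4 : (B : ℝ) ^ N / (P : ℝ) ^ 2 ≤ B ^ N / (P * Y) := by
      refine div_le_div_of_nonneg_left (by positivity) (by positivity) ?_
      rw [sq]
      exact mul_le_mul_of_nonneg_left hYleP hP0.le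
    have e5 : (1 : ℝ) ≤ (4 * N) ^ N := by
      refine one_le_pow₀ ?_
      have : (1 : ℝ) ≤ N := by exact_mod_cast hN
      linarith
    rw [e3] at e2
    refine e2.trans ?_
    have e6 : (1 : ℝ) + (4 * N) ^ N * (B ^ N / (P : ℝ) ^ 2) ≤
        (4 * N) ^ N * (1 + B ^ N / (P * Y)) := by
      have := mul_le_mul_of_nonneg_left e4 (by positivity : (0 : ℝ) ≤ (4 * N) ^ N)
      linarith
    calc (2 : ℝ) ^ N * (1 + (4 * N) ^ N * (B ^ N / (P : ℝ) ^ 2)) ≤
          2 ^ N * ((4 * N) ^ N * (1 + B ^ N / (P * Y))) :=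
            mul_le_mul_of_nonneg_left e6 (by positivity)
      _ = _ := by ring
  have hq2 : (B : ℝ) ^ N / m * Y ≤ B ^ (N - 1) * Y + 4 * N * (B ^ N * (1 / Y)) := by
    calc (B : ℝ) ^ N / m * Y = B ^ N * Y * (1 / m) := by ring
      _ ≤ B ^ N * Y * (1 / B + 4 * N / Y ^ 2) :=
          mul_le_mul_of_nonneg_left hminv (by positivity)
      _ = _ := by
          obtain ⟨k, rfl⟩ : ∃ k, N = k + 1 := ⟨N - 1, by omega⟩
          rw [Nat.add_sub_cancel]
          field_simp
          ring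
  have hA1 : D * P * ((B : ℝ) / m) ^ N ≤ (2 ^ N * (4 * N) ^ N) * (D * (P + B ^ N * (1 / Y))) := by
    calc D * P * ((B : ℝ) / m) ^ N ≤ D * P * (2 ^ N * (4 * N) ^ N * (1 + B ^ N / (P * Y))) :=
          mul_le_mul_of_nonneg_left hq1 (by positivity)
      _ = _ := by field_simp
  have hA2 : (B : ℝ) ^ N / m * (K2 * D * Y) ≤
      K2 * (4 * N) * (D * (B ^ (N - 1) * Y + B ^ N * (1 / Y))) := by
    have hN1 : (1 : ℝ) ≤ N := by exact_mod_cast hN
    have e1 : (B : ℝ) ^ (N - 1) * Y + 4 * N * (B ^ N * (1 / Y)) ≤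
        4 * N * (B ^ (N - 1) * Y + B ^ N * (1 / Y)) := by
      have : 0 ≤ (B : ℝ) ^ (N - 1) * Y := by positivity
      nlinarith
    calc (B : ℝ) ^ N / m * (K2 * D * Y) = K2 * D * ((B : ℝ) ^ N / m * Y) := by ring
      _ ≤ K2 * D * (4 * N * (B ^ (N - 1) * Y + B ^ N * (1 / Y))) :=
          mul_le_mul_of_nonneg_left (hq2.trans e1) (by positivity)
      _ = _ := by ring
  have hE1 : 0 ≤ (B : ℝ) ^ (N - 1) * Y := by positivity
  have hE2 : 0 ≤ (B : ℝ) ^ N * (1 / Y) := by positivity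
  set X1 : ℝ := (B : ℝ) ^ (N - 1) * Y with hX1
  set X2 : ℝ := (B : ℝ) ^ N * (1 / Y) with hX2
  have hfin1 : (2 ^ N * (4 * N) ^ N) * ((D : ℝ) * (P + X2)) ≤
      (2 ^ N * (4 * N) ^ N) * (D * (P + X1 + X2)) := by
    refine mul_le_mul_of_nonneg_left (mul_le_mul_of_nonneg_left ?_ hD0.le) (by positivity)
    linarith
  have hfin2 : K2 * (4 * N) * ((D : ℝ) * (X1 + X2)) ≤ K2 * (4 * N) * (D * (P + X1 + X2)) := by
    refine mul_le_mul_of_nonneg_left (mul_le_mul_of_nonneg_left ?_ hD0.le) (by positivity)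
    linarith
  have hfin3 : (D : ℝ) * P ≤ D * (P + X1 + X2) :=
    mul_le_mul_of_nonneg_left (by linarith) hD0.le
  calc _ ≤ K1 * (D * P * ((B : ℝ) / m) ^ N + (B : ℝ) ^ N / m * (K2 * D * Y)) + D * P :=
        add_le_add hs1 hs2
    _ ≤ K1 * ((2 ^ N * (4 * N) ^ N) * (D * (P + X1 + X2)) +
          K2 * (4 * N) * (D * (P + X1 + X2))) + D * (P + X1 + X2) := by
        refine add_le_add (mul_le_mul_of_nonneg_left (add_le_add (hA1.trans hfin1)
          (hA2.trans hfin2)) hK10.le) hfin3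
    _ = (1 + K1 * (2 ^ N * (4 * N) ^ N + K2 * (4 * N))) * D * (P + X1 + X2) := by ring

end Pool.Agent.N147.DR
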