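import Pool.Agent.N147.DR.Typ1

/-! Project DR: the types at a good prime. -/

set_option autoImplicit false

namespace Pool.Agent.N147.DR

open NumberField IsDedekindDomain Module Polynomial Pool.Agent.N753.DR

section loc

variable {K L : Type} [Field K] [NumberField K] [Field L] [NumberField L] [Algebra K L]

theorem nzsd : NoZeroSMulDivisors (𝓞 K) (𝓞 L) := ⟨by
  intro c x h
  rw [Algebra.smul_def] at h
  rcases mul_eq_zero.1 h with h | h
  · left
    exact (map_eq_zero_iff _ (FaithfulSMul.algebraMap_injective (𝓞 K) (𝓞 L))).1 h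
  · exact Or.inr h⟩

theorem under_mem {v : HeightOneSpectrum (𝓞 K)} {w : HeightOneSpectrum (𝓞 L)}
    (h : w.asIdeal.LiesOver v.asIdeal) (c : 𝓞 K) :
    algebraMap (𝓞 K) (𝓞 L) c ∈ w.asIdeal ↔ c ∈ v.asIdeal := by
  have h1 : v.asIdeal = w.asIdeal.under (𝓞 K) := h.over
  rw [h1]
  rfl

/-- number of elements of the quotient rings -/
theorem norm_le {v : HeightOneSpectrum (𝓞 K)} {w : HeightOneSpectrum (𝓞 L)}
    (h : ∀ y : 𝓞 L, ∃ z : 𝓞 K, y - algebraMap (𝓞 K) (𝓞 L) z ∈ w.asIdeal)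
    (hvw : w.asIdeal.LiesOver v.asIdeal) :
    Ideal.absNorm w.asIdeal ≤ Ideal.absNorm v.asIdeal := by
  have hfin : Finite (𝓞 K ⧸ v.asIdeal) := Ideal.finiteQuotientOfFreeOfNeBot _ v.ne_bot
  let f : 𝓞 K →+* 𝓞 L ⧸ w.asIdeal := (Ideal.Quotient.mk w.asIdeal).comp (algebraMap (𝓞 K) (𝓞 L))
  have hf : ∀ c ∈ v.asIdeal, f c = 0 := fun c hc =>
    Ideal.Quotient.eq_zero_iff_mem.2 ((under_mem hvw c).2 hc)
  let g : 𝓞 K ⧸ v.asIdeal →+* 𝓞 L ⧸ w.asIdeal := Ideal.Quotient.lift v.asIdeal f hf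
  have hg : Function.Surjective g := by
    intro y
    obtain ⟨y, rfl⟩ := Ideal.Quotient.mk_surjective y
    obtain ⟨z, hz⟩ := h y
    refine ⟨Ideal.Quotient.mk _ z, ?_⟩
    show f z = _
    exact (Ideal.Quotient.eq.2 (by
      have := w.asIdeal.neg_mem hz
      rwa [neg_sub] at this))
  rw [Ideal.absNorm_apply, Ideal.absNorm_apply, Submodule.cardQuot_apply, Submodule.cardQuot_apply]
  exact Nat.card_le_card_of_surjective g hg

/-- independence of `1, θ` -/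
theorem indep {v : HeightOneSpectrum (𝓞 K)} {w : HeightOneSpectrum (𝓞 L)}
    (hvw : w.asIdeal.LiesOver v.asIdeal) {θ : 𝓞 L} {Δ : 𝓞 K} (hΔ : Δ ∉ v.asIdeal)
    (hg : ∀ y : 𝓞 L, ∃ g : (𝓞 K)[X], algebraMap (𝓞 K) (𝓞 L) Δ * y = aeval θ g)
    (c0 c1 : 𝓞 K)
    (h : algebraMap (𝓞 K) (𝓞 L) c0 + algebraMap (𝓞 K) (𝓞 L) c1 * θ ∈ w.asIdeal)
    (h2 : Ideal.absNorm v.asIdeal < Ideal.absNorm w.asIdeal ∨
        ∃ w' : HeightOneSpectrum (𝓞 L), w'.asIdeal.LiesOver v.asIdeal ∧ w' ≠ w ∧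
          algebraMap (𝓞 K) (𝓞 L) c0 + algebraMap (𝓞 K) (𝓞 L) c1 * θ ∈ w'.asIdeal) :
    c0 ∈ v.asIdeal ∧ c1 ∈ v.asIdeal := by
  have hmax : v.asIdeal.IsMaximal := v.isMaximal
  by_cases hc1 : c1 ∈ v.asIdeal
  · refine ⟨?_, hc1⟩
    rw [← under_mem hvw]
    have h3 : algebraMap (𝓞 K) (𝓞 L) c1 * θ ∈ w.asIdeal :=
      w.asIdeal.mul_mem_right _ ((under_mem hvw c1).2 hc1)
    have h4 := w.asIdeal.sub_mem h h3
    rwa [add_sub_cancel_right] at h4
  · exfalso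
    -- `θ` is congruent to `t`
    obtain ⟨t, i, hi, ht⟩ : ∃ t i, i ∈ v.asIdeal ∧ t * c1 + i = -c0 := by
      obtain ⟨y, i, hi, hy⟩ := hmax.exists_inv hc1
      refine ⟨-c0 * y, -c0 * i, v.asIdeal.mul_mem_left _ hi, ?_⟩
      linear_combination (-c0) * hy
    have hthe : ∀ u : HeightOneSpectrum (𝓞 L), u.asIdeal.LiesOver v.asIdeal →
        algebraMap (𝓞 K) (𝓞 L) c0 + algebraMap (𝓞 K) (𝓞 L) c1 * θ ∈ u.asIdeal →
        θ - algebraMap (𝓞 K) (𝓞 L) t ∈ u.asIdeal := by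
      intro u hu h3
      have h4 : algebraMap (𝓞 K) (𝓞 L) c1 * (θ - algebraMap (𝓞 K) (𝓞 L) t) ∈ u.asIdeal := by
        have h5 := u.asIdeal.add_mem h3 ((under_mem hu i).2 hi)
        have h6 := congrArg (algebraMap (𝓞 K) (𝓞 L)) ht
        rw [map_add, map_mul, map_neg] at h6
        have h7 : algebraMap (𝓞 K) (𝓞 L) c1 * (θ - algebraMap (𝓞 K) (𝓞 L) t) =
            algebraMap (𝓞 K) (𝓞 L) c0 + algebraMap (𝓞 K) (𝓞 L) c1 * θ +
              algebraMap (𝓞 K) (𝓞 L) i := by linear_combination -h6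
        rw [h7]
        exact h5
      rcases u.isPrime.mem_or_mem h4 with h5 | h5
      · exact absurd ((under_mem hu c1).1 h5) hc1
      · exact h5
    have hpol : ∀ u : HeightOneSpectrum (𝓞 L), u.asIdeal.LiesOver v.asIdeal →
        algebraMap (𝓞 K) (𝓞 L) c0 + algebraMap (𝓞 K) (𝓞 L) c1 * θ ∈ u.asIdeal →
        ∀ g : (𝓞 K)[X], aeval θ g - algebraMap (𝓞 K) (𝓞 L) (g.eval t) ∈ u.asIdeal := by
      intro u hu h3 g
      have h4 : (θ - algebraMap (𝓞 K) (𝓞 L) t) ∣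
          aeval θ g - aeval (algebraMap (𝓞 K) (𝓞 L) t) g := by
        rw [aeval_def, aeval_def, eval₂_eq_eval_map, eval₂_eq_eval_map]
        exact sub_dvd_eval_sub _ _ _
      rw [aeval_algebraMap_apply] at h4
      rw [← coe_aeval_eq_eval]
      exact Ideal.mem_of_dvd _ h4 (hthe u hu h3)
    rcases h2 with h2 | ⟨w', hw', hne, h2⟩
    · obtain ⟨Δ', i', hi', hΔ'⟩ := hmax.exists_inv hΔ
      have h3 : Ideal.absNorm w.asIdeal ≤ Ideal.absNorm v.asIdeal := by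
        refine norm_le (v := v) ?_ hvw
        intro y
        obtain ⟨g, hgy⟩ := hg y
        refine ⟨Δ' * g.eval t, ?_⟩
        have h4 := hpol w hvw h g
        rw [← hgy] at h4
        have h5 := congrArg (algebraMap (𝓞 K) (𝓞 L)) hΔ'
        rw [map_add, map_mul, map_one] at h5
        rw [map_mul]
        have h6 : y - algebraMap (𝓞 K) (𝓞 L) Δ' * algebraMap (𝓞 K) (𝓞 L) (g.eval t) =
            algebraMap (𝓞 K) (𝓞 L) i' * y + algebraMap (𝓞 K) (𝓞 L) Δ' *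
              (algebraMap (𝓞 K) (𝓞 L) Δ * y - algebraMap (𝓞 K) (𝓞 L) (g.eval t)) := by
          linear_combination (-y) * h5
        rw [h6]
        exact w.asIdeal.add_mem (w.asIdeal.mul_mem_right _ ((under_mem hvw i').2 hi'))
          (w.asIdeal.mul_mem_left _ h4)
      omega
    · apply hne
      have hle : w.asIdeal ≤ w'.asIdeal := by
        intro y hy
        obtain ⟨g, hgy⟩ := hg y
        have h4 := hpol w hvw h g
        have h5 := hpol w' hw' h2 g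
        rw [← hgy] at h4 h5
        have h6 : algebraMap (𝓞 K) (𝓞 L) (g.eval t) ∈ w.asIdeal := by
          have h7 := w.asIdeal.sub_mem (w.asIdeal.mul_mem_left (algebraMap (𝓞 K) (𝓞 L) Δ) hy) h4
          rwa [sub_sub_cancel] at h7
        have h7 : algebraMap (𝓞 K) (𝓞 L) (g.eval t) ∈ w'.asIdeal :=
          (under_mem hw' _).2 ((under_mem hvw _).1 h6)
        have h8 := w'.asIdeal.add_mem h5 h7
        rw [sub_add_cancel] at h8
        rcases w'.isPrime.mem_or_mem h8 with h9 | h9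
        · exact absurd ((under_mem hw' _).1 h9) hΔ
        · exact h9
      have hwmax : w.asIdeal.IsMaximal := w.isMaximal
      ext1
      exact (hwmax.eq_of_le w'.isPrime.ne_top hle).symm

/-- the norm of a prime above `v` -/
theorem norm_pow {v : HeightOneSpectrum (𝓞 K)} {w : HeightOneSpectrum (𝓞 L)}
    (h : w.asIdeal.LiesOver v.asIdeal) :
    Ideal.absNorm w.asIdeal = Ideal.absNorm v.asIdeal ^ (v.asIdeal.inertiaDeg' w.asIdeal) :=
  Ideal.absNorm_eq_pow_inertiaDeg'_of_liesOver w.asIdeal v.asIdeal v.isPrime v.ne_bot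

theorem two_le_norm (v : HeightOneSpectrum (𝓞 K)) : 2 ≤ Ideal.absNorm v.asIdeal := by
  have h0 : Ideal.absNorm v.asIdeal ≠ 0 := by
    rw [Ne, Ideal.absNorm_eq_zero_iff]; exact v.ne_bot
  have h1 : Ideal.absNorm v.asIdeal ≠ 1 := by
    rw [Ne, Ideal.absNorm_eq_one_iff]; exact v.isPrime.ne_top
  omega

theorem norm_ge {v : HeightOneSpectrum (𝓞 K)} {w : HeightOneSpectrum (𝓞 L)}
    (h : w.asIdeal.LiesOver v.asIdeal) : Ideal.absNorm v.asIdeal ≤ Ideal.absNorm w.asIdeal := by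
  rw [norm_pow h]
  have hmax : v.asIdeal.IsMaximal := v.isMaximal
  refine Nat.le_self_pow ?_ _
  exact Ideal.inertiaDeg'_ne_zero v.asIdeal w.asIdeal

theorem norm_sq {v : HeightOneSpectrum (𝓞 K)} {w : HeightOneSpectrum (𝓞 L)}
    (h : w.asIdeal.LiesOver v.asIdeal) (h2 : Ideal.absNorm v.asIdeal < Ideal.absNorm w.asIdeal) :
    Ideal.absNorm v.asIdeal ^ 2 ≤ Ideal.absNorm w.asIdeal := by
  have h3 := norm_pow h
  have h4 := two_le_norm v
  rw [h3] at h2 ⊢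
  refine Nat.pow_le_pow_right (by omega) ?_
  by_contra hcon
  have h5 : v.asIdeal.inertiaDeg' w.asIdeal ≤ 1 := by omega
  have h6 := Nat.pow_le_pow_right (by omega : 0 < Ideal.absNorm v.asIdeal) h5
  rw [pow_one] at h6
  omega

/-- the types are nonzero, their norms -/
theorem typ_norm {v : HeightOneSpectrum (𝓞 K)} {b : Ideal (𝓞 L)} (hb : IsTyp v b) :
    b ≠ ⊥ ∧ Ideal.absNorm v.asIdeal ^ 2 ≤ Ideal.absNorm b := by
  obtain ⟨w, hw, rfl | ⟨w', hw', _, rfl⟩ | ⟨rfl, h⟩⟩ := hb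
  · refine ⟨pow_ne_zero 2 w.ne_bot, ?_⟩
    rw [map_pow]
    exact Nat.pow_le_pow_left (norm_ge hw) 2
  · refine ⟨mul_ne_zero w.ne_bot w'.ne_bot, ?_⟩
    rw [map_mul, sq]
    exact Nat.mul_le_mul (norm_ge hw) (norm_ge hw')
  · exact ⟨w.ne_bot, norm_sq hw h⟩

/-- the number of the types -/
theorem typ_fin (v : HeightOneSpectrum (𝓞 K)) :
    {b : Ideal (𝓞 L) | IsTyp v b}.Finite ∧
      {b : Ideal (𝓞 L) | IsTyp v b}.ncard ≤ 2 * finrank K L ^ 2 := by
  classical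
  have hmax : v.asIdeal.IsMaximal := v.isMaximal
  set W := IsDedekindDomain.primesOverFinset v.asIdeal (𝓞 L) with hW
  have := nzsd (K := K) (L := L)
  have hWcard : W.card ≤ finrank K L :=
    Ideal.card_primesOverFinset_le_finrank (𝓞 L) K L v.ne_bot
  have hWm : ∀ w : HeightOneSpectrum (𝓞 L), w.asIdeal.LiesOver v.asIdeal → w.asIdeal ∈ W :=
    fun w hw => (IsDedekindDomain.mem_primesOverFinset_iff v.ne_bot _).2 ⟨w.isPrime, hw⟩
  set U : Finset (Ideal (𝓞 L)) := (W ×ˢ W).image (fun p => p.1 * p.2) ∪ W with hU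
  have hsub : {b : Ideal (𝓞 L) | IsTyp v b} ⊆ (U : Set (Ideal (𝓞 L))) := by
    rintro b ⟨w, hw, rfl | ⟨w', hw', _, rfl⟩ | ⟨rfl, _⟩⟩
    · rw [Finset.mem_coe, hU, Finset.mem_union, Finset.mem_image]
      exact Or.inl ⟨(w.asIdeal, w.asIdeal), Finset.mem_product.2 ⟨hWm w hw, hWm w hw⟩, (sq _).symm⟩
    · rw [Finset.mem_coe, hU, Finset.mem_union, Finset.mem_image]
      exact Or.inl ⟨(w.asIdeal, w'.asIdeal), Finset.mem_product.2 ⟨hWm w hw, hWm w' hw'⟩, rfl⟩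
    · rw [Finset.mem_coe, hU, Finset.mem_union]
      exact Or.inr (hWm w hw)
  refine ⟨(Finset.finite_toSet U).subset hsub, ?_⟩
  have h1 := Set.ncard_le_ncard hsub (Finset.finite_toSet U)
  rw [Set.ncard_coe_finset] at h1
  refine h1.trans ?_
  have h2 : U.card ≤ W.card * W.card + W.card := by
    refine (Finset.card_union_le _ _).trans (Nat.add_le_add_right ?_ _)
    refine Finset.card_image_le.trans ?_
    rw [Finset.card_product]
  have h3 : 1 ≤ finrank K L := Module.finrank_pos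
  nlinarith

/-- the index of a preimage -/
theorem index_lower {G H : Type} [AddCommGroup G] [AddCommGroup H] (g : H →+ G)
    (b : AddSubgroup G) (hb : b.index ≠ 0) (V : AddSubgroup H) (hV : b.comap g ≤ V) :
    V.index ≤ b.index := by
  have h1 : (b.comap g).index ∣ b.index := by
    rw [AddSubgroup.index_comap]
    exact AddSubgroup.relIndex_dvd_index_of_normal _ _
  have h2 : V.index ∣ (b.comap g).index := AddSubgroup.index_dvd_of_le hV
  exact Nat.le_of_dvd (Nat.pos_of_ne_zero hb) (h2.trans h1)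

theorem index_ideal {R : Type} [CommRing R] [IsDedekindDomain R] [Module.Free ℤ R]
    [Module.Finite ℤ R] (I : Ideal R) : (Submodule.toAddSubgroup I).index = Ideal.absNorm I := by
  rw [Ideal.absNorm_apply]
  rfl

theorem evS_single0 (a : ℕ) (θ : 𝓞 L) (r s : ℕ) (hs : 0 < s) (c : 𝓞 K) :
    evS K a θ r s (Pi.single ⟨0, hs⟩ c) = algebraMap (𝓞 K) (𝓞 L) (c * (a : 𝓞 K) ^ r) := by
  show ∑ i : Fin s, algebraMap (𝓞 K) (𝓞 L) ((Pi.single ⟨0, hs⟩ c : Fin s → 𝓞 K) i) *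
    ((a : 𝓞 L) ^ (r - (i : ℕ)) * θ ^ (i : ℕ)) = _
  rw [Finset.sum_eq_single (⟨0, hs⟩ : Fin s)]
  · rw [Pi.single_eq_same]
    simp
  · intro i _ hi
    rw [Pi.single_eq_of_ne hi, map_zero, zero_mul]
  · intro h; exact absurd (Finset.mem_univ _) h

theorem evS_single1 (a : ℕ) (θ : 𝓞 L) (r s : ℕ) (hs : 1 < s) (c : 𝓞 K) :
    evS K a θ r s (Pi.single ⟨1, hs⟩ c) =
      algebraMap (𝓞 K) (𝓞 L) c * ((a : 𝓞 L) ^ (r - 1) * θ) := by
  show ∑ i : Fin s, algebraMap (𝓞 K) (𝓞 L) ((Pi.single ⟨1, hs⟩ c : Fin s → 𝓞 K) i) *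
    ((a : 𝓞 L) ^ (r - (i : ℕ)) * θ ^ (i : ℕ)) = _
  rw [Finset.sum_eq_single (⟨1, hs⟩ : Fin s)]
  · rw [Pi.single_eq_same]
    simp
  · intro i _ hi
    rw [Pi.single_eq_of_ne hi, map_zero, zero_mul]
  · intro h; exact absurd (Finset.mem_univ _) h

theorem pow_notMem {v : HeightOneSpectrum (𝓞 K)} {a : ℕ} (ha : (a : 𝓞 K) ∉ v.asIdeal) (k : ℕ) :
    (a : 𝓞 K) ^ k ∉ v.asIdeal := fun h => ha (v.isPrime.mem_of_pow_mem k h)

/-- the lattices have large index -/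
theorem typ_index {v : HeightOneSpectrum (𝓞 K)} {θ : 𝓞 L} {a r : ℕ} (hr : 1 ≤ r)
    (ha : (a : 𝓞 K) ∉ v.asIdeal)
    (hunr : ∀ w : HeightOneSpectrum (𝓞 L), w.asIdeal.LiesOver v.asIdeal → ∀ (e : ℕ) (c : 𝓞 K),
      algebraMap (𝓞 K) (𝓞 L) c ∈ w.asIdeal ^ e → c ∈ v.asIdeal ^ e)
    (hind : ∀ w : HeightOneSpectrum (𝓞 L), w.asIdeal.LiesOver v.asIdeal → ∀ c0 c1 : 𝓞 K,
      algebraMap (𝓞 K) (𝓞 L) c0 + algebraMap (𝓞 K) (𝓞 L) c1 * θ ∈ w.asIdeal →
      (Ideal.absNorm v.asIdeal < Ideal.absNorm w.asIdeal ∨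
        ∃ w' : HeightOneSpectrum (𝓞 L), w'.asIdeal.LiesOver v.asIdeal ∧ w' ≠ w ∧
          algebraMap (𝓞 K) (𝓞 L) c0 + algebraMap (𝓞 K) (𝓞 L) c1 * θ ∈ w'.asIdeal) →
      c0 ∈ v.asIdeal ∧ c1 ∈ v.asIdeal)
    {b : Ideal (𝓞 L)} (hb : IsTyp v b) (s : ℕ) (hs : 2 ≤ s ∨ finrank K L = 1) (hs1 : 1 ≤ s) :
    ((Submodule.toAddSubgroup b).comap (evS K a θ r s)).index ≠ 0 ∧
        Ideal.absNorm v.asIdeal ^ 2 ≤ ((Submodule.toAddSubgroup b).comap (evS K a θ r s)).index := by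
  classical
  have hbn := (typ_norm hb).1
  have hidx : (Submodule.toAddSubgroup b).index ≠ 0 := by
    rw [index_ideal, Ne, Ideal.absNorm_eq_zero_iff]; exact hbn
  have h0 : ((Submodule.toAddSubgroup b).comap (evS K a θ r s)).index ≠ 0 := by
    rw [AddSubgroup.index_comap]
    intro h
    have h1 := AddSubgroup.relIndex_dvd_index_of_normal (Submodule.toAddSubgroup b)
      (evS K a θ r s).range
    rw [h] at h1
    exact hidx (Nat.eq_zero_of_zero_dvd h1)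
  refine ⟨h0, ?_⟩
  have haw : ∀ w : HeightOneSpectrum (𝓞 L), w.asIdeal.LiesOver v.asIdeal → ∀ k : ℕ,
      (a : 𝓞 L) ^ k ∉ w.asIdeal := by
    intro w hw k h
    apply pow_notMem ha k
    rw [← under_mem hw, map_pow, map_natCast]
    exact h
  -- the second case
  have hcase2 : ∀ w : HeightOneSpectrum (𝓞 L), w.asIdeal.LiesOver v.asIdeal → b ≤ w.asIdeal →
      (Ideal.absNorm v.asIdeal < Ideal.absNorm w.asIdeal ∨
        ∃ w' : HeightOneSpectrum (𝓞 L), w'.asIdeal.LiesOver v.asIdeal ∧ w' ≠ w ∧ b ≤ w'.asIdeal) →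
      Ideal.absNorm v.asIdeal ^ 2 ≤
        ((Submodule.toAddSubgroup b).comap (evS K a θ r s)).index := by
    intro w hw hbw hcond
    have hs2 : 1 < s := by
      rcases hs with hs | hs
      · omega
      · exfalso
        have hmax : v.asIdeal.IsMaximal := v.isMaximal
        have := nzsd (K := K) (L := L)
        rcases hcond with h | ⟨w', hw', hne, _⟩
        · have h1 := Ideal.inertiaDeg_le_finrank (𝓞 L) K L w.asIdeal (p := v.asIdeal) v.ne_bot
          rw [hs] at h1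
          rw [norm_pow hw] at h
          have h2 := Nat.pow_le_pow_right (by have := two_le_norm v; omega :
            0 < Ideal.absNorm v.asIdeal) h1
          rw [pow_one] at h2
          omega
        · have hWcard : (IsDedekindDomain.primesOverFinset v.asIdeal (𝓞 L)).card ≤ finrank K L :=
            Ideal.card_primesOverFinset_le_finrank (𝓞 L) K L v.ne_bot
          rw [hs] at hWcard
          have h1 := Finset.card_le_one.1 hWcard w'.asIdeal
            ((IsDedekindDomain.mem_primesOverFinset_iff v.ne_bot _).2 ⟨w'.isPrime, hw'⟩) w.asIdeal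
            ((IsDedekindDomain.mem_primesOverFinset_iff v.ne_bot _).2 ⟨w.isPrime, hw⟩)
          apply hne
          ext1
          exact h1
    let g : 𝓞 K × 𝓞 K →+ (Fin s → 𝓞 K) :=
      (AddMonoidHom.single (fun _ : Fin s => 𝓞 K) ⟨0, by omega⟩).coprod
        (AddMonoidHom.single (fun _ : Fin s => 𝓞 K) ⟨1, hs2⟩)
    have hg : ∀ p : 𝓞 K × 𝓞 K, g p = (Pi.single ⟨0, by omega⟩ p.1 : Fin s → 𝓞 K) +
        Pi.single ⟨1, hs2⟩ p.2 := fun p => rfl
    have h1 := index_lower g ((Submodule.toAddSubgroup b).comap (evS K a θ r s)) h0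
      ((Submodule.toAddSubgroup v.asIdeal).prod (Submodule.toAddSubgroup v.asIdeal)) (by
      rintro ⟨c0, c1⟩ hc
      have hc' : evS K a θ r s (g (c0, c1)) ∈ b := hc
      rw [hg, map_add, evS_single0, evS_single1] at hc'
      have e1 : algebraMap (𝓞 K) (𝓞 L) (c0 * (a : 𝓞 K) ^ r) +
          algebraMap (𝓞 K) (𝓞 L) c1 * ((a : 𝓞 L) ^ (r - 1) * θ) =
          (a : 𝓞 L) ^ (r - 1) * (algebraMap (𝓞 K) (𝓞 L) (c0 * a) +
            algebraMap (𝓞 K) (𝓞 L) c1 * θ) := by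
        obtain ⟨k, rfl⟩ : ∃ k, r = k + 1 := ⟨r - 1, by omega⟩
        rw [Nat.add_sub_cancel, map_mul, map_mul, map_pow, map_natCast]
        ring
      rw [e1] at hc'
      have h2 : ∀ u : HeightOneSpectrum (𝓞 L), u.asIdeal.LiesOver v.asIdeal → b ≤ u.asIdeal →
          algebraMap (𝓞 K) (𝓞 L) (c0 * a) + algebraMap (𝓞 K) (𝓞 L) c1 * θ ∈ u.asIdeal := by
        intro u hu hbu
        rcases u.isPrime.mem_or_mem (hbu hc') with h3 | h3
        · exact absurd h3 (haw u hu _)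
        · exact h3
      have h3 := hind w hw (c0 * a) c1 (h2 w hw hbw) (by
        rcases hcond with h | ⟨w', hw', hne, hbw'⟩
        · exact Or.inl h
        · exact Or.inr ⟨w', hw', hne, h2 w' hw' hbw'⟩)
      refine AddSubgroup.mem_prod.2 ⟨?_, h3.2⟩
      rcases v.isPrime.mem_or_mem h3.1 with h4 | h4
      · exact h4
      · exact absurd h4 ha)
    rw [AddSubgroup.index_prod, index_ideal, ← sq] at h1
    exact h1
  obtain ⟨w, hw, h | ⟨w', hw', hne, h⟩ | ⟨h, hlt⟩⟩ := hb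
  · let g : 𝓞 K →+ (Fin s → 𝓞 K) := AddMonoidHom.single (fun _ : Fin s => 𝓞 K) ⟨0, by omega⟩
    have h1 := index_lower g ((Submodule.toAddSubgroup b).comap (evS K a θ r s)) h0
      (Submodule.toAddSubgroup (v.asIdeal ^ 2)) (by
      intro c hc
      have hc' : evS K a θ r s (Pi.single ⟨0, by omega⟩ c) ∈ b := hc
      rw [evS_single0, h] at hc'
      have h2 := hunr w hw 2 _ hc'
      have hp := v.isPrime
      rw [mul_comm] at h2
      rcases Ideal.IsPrime.mul_mem_pow v.asIdeal h2 with h3 | h3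
      · exact absurd h3 (pow_notMem ha r)
      · exact h3)
    rw [index_ideal, map_pow] at h1
    exact h1
  · refine hcase2 w hw (by rw [h]; exact Ideal.mul_le_left) (Or.inr ⟨w', hw', hne, ?_⟩)
    rw [h]; exact Ideal.mul_le_right
  · exact hcase2 w hw (by rw [h]) (Or.inl hlt)

/-- unramified over the rational numbers -/
theorem unr_Q {v : HeightOneSpectrum (𝓞 K)}
    (h : ∀ u : HeightOneSpectrum ℤ, v.asIdeal.LiesOver u.asIdeal →
      u.asIdeal.ramificationIdx' v.asIdeal = 1) (p : ℕ) (hp : p.Prime) (hpv : (p : 𝓞 K) ∈ v.asIdeal)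
    (e : ℕ) (m : ℤ) (hm : (m : 𝓞 K) ∈ v.asIdeal ^ e) : (p : ℤ) ^ e ∣ m := by
  have hp' : Prime (p : ℤ) := Nat.prime_iff_prime_int.1 hp
  have hprime : (Ideal.span {(p : ℤ)}).IsPrime := (Ideal.span_singleton_prime hp'.ne_zero).2 hp'
  have hne : Ideal.span {(p : ℤ)} ≠ ⊥ := by
    rw [Ne, Ideal.span_singleton_eq_bot]; exact hp'.ne_zero
  let u : HeightOneSpectrum ℤ := ⟨Ideal.span {(p : ℤ)}, hprime, hne⟩
  have hmax : (Ideal.span {(p : ℤ)}).IsMaximal := hprime.isMaximal hne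
  have hover : v.asIdeal.LiesOver u.asIdeal := by
    refine ⟨?_⟩
    refine hmax.eq_of_le ?_ ?_
    · intro h1
      apply v.isPrime.ne_top
      rw [Ideal.eq_top_iff_one] at h1 ⊢
      have h2 : algebraMap ℤ (𝓞 K) 1 ∈ v.asIdeal := h1
      rwa [map_one] at h2
    · rw [Ideal.span_singleton_le_iff_mem]
      show algebraMap ℤ (𝓞 K) (p : ℤ) ∈ v.asIdeal
      simpa using hpv
  have h1 := unram u v (h u hover) e m (by simpa using hm)
  have h2 : m ∈ (Ideal.span {(p : ℤ)}) ^ e := h1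
  rw [Ideal.span_singleton_pow, Ideal.mem_span_singleton] at h2
  exact h2

end loc

theorem typ : StmTyp := by
  intro K L _ _ _ _ _ θ a r hθ ha hr
  obtain ⟨Δ, hΔ0, hΔ⟩ := exists_delta K L θ hθ
  obtain ⟨s1, hs1, hr1⟩ := ram_LK K L
  obtain ⟨s2, hs2, hr2⟩ := ram_KQ K
  have hs1' := below_fin (A := 𝓞 K) s1 hs1
  have ha0 : (Ideal.span {(a : 𝓞 K)}) ≠ ⊥ := by
    rw [Ne, Ideal.span_singleton_eq_bot]
    exact_mod_cast ha
  have hD0 : (Ideal.span {Δ}) ≠ ⊥ := by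
    rw [Ne, Ideal.span_singleton_eq_bot]
    exact hΔ0
  have hs3 := Ideal.finite_factors ha0
  have hs4 := Ideal.finite_factors hD0
  have hfin := ((hs1'.union hs2).union hs3).union hs4
  refine ⟨hfin.toFinset, ?_⟩
  intro v hv
  rw [Set.Finite.mem_toFinset, Set.mem_union, Set.mem_union, Set.mem_union, not_or, not_or,
    not_or] at hv
  obtain ⟨⟨⟨hv1, hv2⟩, hv3⟩, hv4⟩ := hv
  have hav : (a : 𝓞 K) ∉ v.asIdeal := by
    intro h
    apply hv3
    show v.asIdeal ∣ Ideal.span {(a : 𝓞 K)}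
    rw [Ideal.dvd_span_singleton]
    exact h
  have hΔv : Δ ∉ v.asIdeal := by
    intro h
    apply hv4
    show v.asIdeal ∣ Ideal.span {Δ}
    rw [Ideal.dvd_span_singleton]
    exact h
  have hunr : ∀ w : HeightOneSpectrum (𝓞 L), w.asIdeal.LiesOver v.asIdeal → ∀ (e : ℕ) (c : 𝓞 K),
      algebraMap (𝓞 K) (𝓞 L) c ∈ w.asIdeal ^ e → c ∈ v.asIdeal ^ e := by
    intro w hw e c hc
    refine unram v w (hr1 w ?_ v hw) e c hc
    intro hw1
    exact hv1 ⟨w, hw1, hw⟩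
  have hind : ∀ w : HeightOneSpectrum (𝓞 L), w.asIdeal.LiesOver v.asIdeal → ∀ c0 c1 : 𝓞 K,
      algebraMap (𝓞 K) (𝓞 L) c0 + algebraMap (𝓞 K) (𝓞 L) c1 * θ ∈ w.asIdeal →
      (Ideal.absNorm v.asIdeal < Ideal.absNorm w.asIdeal ∨
        ∃ w' : HeightOneSpectrum (𝓞 L), w'.asIdeal.LiesOver v.asIdeal ∧ w' ≠ w ∧
          algebraMap (𝓞 K) (𝓞 L) c0 + algebraMap (𝓞 K) (𝓞 L) c1 * θ ∈ w'.asIdeal) →
      c0 ∈ v.asIdeal ∧ c1 ∈ v.asIdeal :=
    fun w hw c0 c1 h h2 => indep hw hΔv hΔ c0 c1 h h2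
  refine ⟨hav, hunr, fun p hp hpv e m hm => unr_Q (hr2 v hv2) p hp hpv e m hm, hind, ?_, ?_,
    (typ_fin v).1, (typ_fin v).2⟩
  · intro b hb s hs hs1 _
    exact typ_index hr hav hunr hind hb s hs hs1
  · intro b hb
    exact typ_norm hb

end Pool.Agent.N147.DR
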