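import Pool.Agent.N753.DR.Stm

/-! Project DR: unramified primes, local facts. -/

set_option autoImplicit false

namespace Pool.Agent.N147.DR

open NumberField IsDedekindDomain Module Polynomial Pool.Agent.N753.DR

/-- unramified primes: powers contract to powers -/
theorem unram {A B : Type} [CommRing A] [IsDedekindDomain A] [CommRing B] [IsDedekindDomain B]
    [Algebra A B] [Module.IsTorsionFree A B] (v : HeightOneSpectrum A) (w : HeightOneSpectrum B)
    [w.asIdeal.LiesOver v.asIdeal] (he : v.asIdeal.ramificationIdx' w.asIdeal = 1) (e : ℕ) (c : A)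
    (h : algebraMap A B c ∈ w.asIdeal ^ e) : c ∈ v.asIdeal ^ e := by
  have h1 := HeightOneSpectrum.intValuation_liesOver v w c
  rw [he, pow_one] at h1
  rw [← HeightOneSpectrum.intValuation_le_pow_iff_mem] at h ⊢
  rw [h1]
  exact h

theorem ram_one' {A B : Type} [CommRing A] [IsDedekindDomain A] [CommRing B] [IsDedekindDomain B]
    [Algebra A B] [Module.IsTorsionFree A B]
    (v : HeightOneSpectrum A) (w : HeightOneSpectrum B)
    [w.asIdeal.LiesOver v.asIdeal] (hw : ¬ w.asIdeal ^ 2 ∣ v.asIdeal.map (algebraMap A B)) :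
    v.asIdeal.ramificationIdx' w.asIdeal = 1 := by
  have h1 : v.asIdeal.ramificationIdx' w.asIdeal ≠ 0 :=
    Ideal.IsDedekindDomain.ramificationIdx'_ne_zero_of_liesOver w.asIdeal v.ne_bot
  by_contra h2
  have h3 : 2 ≤ v.asIdeal.ramificationIdx' w.asIdeal := by omega
  exact hw (Ideal.dvd_iff_le.2 (Ideal.le_pow_of_le_ramificationIdx' h3))

/-- finitely many primes of `𝓞 K` are below ramified primes -/
theorem ram_LK (K L : Type) [Field K] [NumberField K] [Field L] [NumberField L] [Algebra K L] :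
    ∃ s : Set (HeightOneSpectrum (𝓞 L)), s.Finite ∧ ∀ w ∉ s, ∀ v : HeightOneSpectrum (𝓞 K),
      w.asIdeal.LiesOver v.asIdeal → v.asIdeal.ramificationIdx' w.asIdeal = 1 := by
  have hne : differentIdeal (𝓞 K) (𝓞 L) ≠ ⊥ := differentIdeal_ne_bot
  refine ⟨{w | w.asIdeal ∣ differentIdeal (𝓞 K) (𝓞 L)}, Ideal.finite_factors hne, ?_⟩
  intro w hw v hv
  refine ram_one' v w fun h => hw ?_
  have hmax := v.isMaximal
  have h5 := pow_sub_one_dvd_differentIdeal (𝓞 K) (B := 𝓞 L) w.asIdeal 2 v.ne_bot h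
  simpa using h5

/-- finitely many primes of `𝓞 K` are ramified over the rational numbers -/
theorem ram_KQ (K : Type) [Field K] [NumberField K] :
    ∃ s : Set (HeightOneSpectrum (𝓞 K)), s.Finite ∧ ∀ v ∉ s, ∀ u : HeightOneSpectrum ℤ,
      v.asIdeal.LiesOver u.asIdeal → u.asIdeal.ramificationIdx' v.asIdeal = 1 := by
  have hne : differentIdeal ℤ (𝓞 K) ≠ ⊥ := differentIdeal_ne_bot
  refine ⟨{w | w.asIdeal ∣ differentIdeal ℤ (𝓞 K)}, Ideal.finite_factors hne, ?_⟩
  intro w hw v hv
  refine ram_one' v w fun h => hw ?_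
  have hmax := v.isMaximal
  have h5 := pow_sub_one_dvd_differentIdeal ℤ (B := 𝓞 K) w.asIdeal 2 v.ne_bot h
  simpa using h5

/-- the primes below a finite set of primes -/
theorem below_fin {A B : Type} [CommRing A] [IsDedekindDomain A] [CommRing B] [IsDedekindDomain B]
    [Algebra A B] (s : Set (HeightOneSpectrum B)) (hs : s.Finite) :
    {v : HeightOneSpectrum A | ∃ w ∈ s, w.asIdeal.LiesOver v.asIdeal}.Finite := by
  have h1 : {v : HeightOneSpectrum A | ∃ w ∈ s, w.asIdeal.LiesOver v.asIdeal} =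
      ⋃ w ∈ s, {v : HeightOneSpectrum A | w.asIdeal.LiesOver v.asIdeal} := by
    ext v
    simp
  rw [h1]
  refine hs.biUnion fun w _ => ?_
  refine Set.Subsingleton.finite ?_
  intro v hv v' hv'
  ext1
  have h2 : v.asIdeal = w.asIdeal.under A := hv.over
  have h3 : v'.asIdeal = w.asIdeal.under A := hv'.over
  rw [h2, h3]

/-- the common denominator -/
theorem exists_delta (K L : Type) [Field K] [NumberField K] [Field L] [NumberField L]
    [Algebra K L] (θ : 𝓞 L) (hθ : IntermediateField.adjoin K {(θ : L)} = ⊤) :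
    ∃ Δ : 𝓞 K, Δ ≠ 0 ∧ ∀ y : 𝓞 L, ∃ g : (𝓞 K)[X], algebraMap (𝓞 K) (𝓞 L) Δ * y = aeval θ g := by
  have hint : IsIntegral K (θ : L) := IsIntegral.of_finite K _
  have hθ' : Algebra.adjoin K {(θ : L)} = ⊤ := by
    rw [← IntermediateField.adjoin_simple_toSubalgebra_of_isAlgebraic hint.isAlgebraic, hθ]
    rfl
  let pb : PowerBasis K L := PowerBasis.ofAdjoinEqTop hint hθ'
  have hgen : pb.gen = (θ : L) := PowerBasis.ofAdjoinEqTop_gen hint hθ'
  have hθint : IsIntegral (𝓞 K) (θ : L) := by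
    have h1 : IsIntegral ℤ (θ : L) := θ.isIntegral_coe
    exact h1.tower_top
  have hgint : IsIntegral (𝓞 K) pb.gen := by rw [hgen]; exact hθint
  have hdint : IsIntegral (𝓞 K) (Algebra.discr K pb.basis) := by
    refine Algebra.discr_isIntegral (K := K) (L := L) (R := 𝓞 K) fun i => ?_
    rw [PowerBasis.basis_eq_pow]
    exact hgint.pow _
  obtain ⟨Δ, hΔ⟩ := IsIntegrallyClosed.isIntegral_iff.1 hdint
  refine ⟨Δ, ?_, ?_⟩
  · rintro rfl
    rw [map_zero] at hΔ
    exact Algebra.discr_not_zero_of_basis K pb.basis hΔ.symm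
  · intro y
    have hy : IsIntegral (𝓞 K) (y : L) := by
      have h1 : IsIntegral ℤ (y : L) := y.isIntegral_coe
      exact h1.tower_top
    have h1 := Algebra.discr_mul_isIntegral_mem_adjoin K (B := pb) hgint hy
    rw [hgen, Algebra.adjoin_singleton_eq_range_aeval] at h1
    obtain ⟨g, hg⟩ := h1
    refine ⟨g, ?_⟩
    apply RingOfIntegers.coe_injective
    rw [map_mul]
    have h2 : algebraMap (𝓞 L) L (aeval θ g) = aeval (θ : L) g := by
      rw [← Polynomial.aeval_algebraMap_apply]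
    show algebraMap (𝓞 L) L (algebraMap (𝓞 K) (𝓞 L) Δ) * algebraMap (𝓞 L) L y = algebraMap (𝓞 L) L (aeval θ g)
    rw [h2]
    have h3 : (aeval (θ : L)) g = Algebra.discr K pb.basis • (y : L) := hg
    rw [h3, ← hΔ, ← IsScalarTower.algebraMap_apply, Algebra.smul_def,
      ← IsScalarTower.algebraMap_apply]

end Pool.Agent.N147.DR
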